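import Pool.Agent.Helper594_Ctry.Rand

/-!
# Sums of two of the independent bits
-/

set_option autoImplicit false

open Set MeasureTheory

namespace Pool.Agent.H622

variable {Ω : Type} [MeasurableSpace Ω] {μ : Measure Ω}

/-- The bits `r ω n` are measurable, fair and independent: every pattern of finitely many bits has
its fair probability. -/
def FairBits (μ : Measure Ω) (r : Ω → ℕ → Bool) : Prop :=
  (∀ n, Measurable fun ω => r ω n) ∧
    ∀ (S : Finset ℕ) (t : ℕ → Bool), μ {ω | ∀ n ∈ S, r ω n = t n} = (1 / 2) ^ S.card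

theorem pat {r : Ω → ℕ → Bool} (h : FairBits μ r) {k : ℕ} (i : Fin k → ℕ)
    (hi : Function.Injective i) (P : (Fin k → Bool) → Prop) [DecidablePred P] :
    μ {ω | P (fun l => r ω (i l))} = (Finset.univ.filter P).card * (1 / 2) ^ k := by
  classical
  have h1 : {ω | P (fun l => r ω (i l))} =
      ⋃ t ∈ Finset.univ.filter P, {ω | ∀ l, r ω (i l) = t l} := by
    ext ω
    simp only [mem_setOf_eq, Finset.mem_filter, Finset.mem_univ, true_and, mem_iUnion, exists_prop]
    constructor
    · intro h'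
      exact ⟨_, h', fun l => rfl⟩
    · rintro ⟨t, ht, h'⟩
      have : (fun l => r ω (i l)) = t := funext h'
      rwa [this]
  have h2 : ∀ t : Fin k → Bool, μ {ω | ∀ l, r ω (i l) = t l} = (1 / 2) ^ k := by
    intro t
    have h3 := h.2 (Finset.univ.image i) (fun n => if hn : ∃ l, i l = n then t hn.choose else false)
    rw [Finset.card_image_of_injective _ hi, Finset.card_univ, Fintype.card_fin] at h3
    rw [← h3]
    congr 1
    ext ω
    simp only [mem_setOf_eq, Finset.mem_image, Finset.mem_univ, true_and]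
    constructor
    · rintro h' n ⟨l, rfl⟩
      have hex : ∃ l', i l' = i l := ⟨l, rfl⟩
      rw [dif_pos hex, ← h', hex.choose_spec]
    · intro h' l
      have h4 := h' (i l) ⟨l, rfl⟩
      have hex : ∃ l', i l' = i l := ⟨l, rfl⟩
      rw [dif_pos hex, hi hex.choose_spec] at h4
      exact h4
  rw [h1, measure_biUnion_finset]
  · rw [Finset.sum_congr rfl fun t _ => h2 t, Finset.sum_const, nsmul_eq_mul]
  · intro t _ t' _ hne
    rw [Function.onFun, Set.disjoint_left]
    intro ω hω hω'
    apply hne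
    funext l
    rw [← hω l, ← hω' l]
  · intro t _
    have : {ω | ∀ l, r ω (i l) = t l} = ⋂ l, {ω | r ω (i l) = t l} := by
      ext ω
      simp
    rw [this]
    exact MeasurableSet.iInter fun l => h.1 (i l) (measurableSet_singleton (t l))

/-- the sum of two bits -/
def xbit (r : Ω → ℕ → Bool) (ω : Ω) (m : ℕ) : Bool :=
  xor (r ω (Nat.unpair m).1) (r ω ((Nat.unpair m).1 + (Nat.unpair m).2 + 1))

/-- the number of a pair of bits -/
def enc (p q : ℕ) : ℕ := Nat.pair (min p q) (max p q - min p q - 1)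

theorem xbit_enc (r : Ω → ℕ → Bool) (ω : Ω) {p q : ℕ} (h : p ≠ q) :
    xbit r ω (enc p q) = xor (r ω p) (r ω q) := by
  unfold xbit enc
  rw [Nat.unpair_pair]
  rcases lt_or_gt_of_ne h with h1 | h1
  · rw [min_eq_left h1.le, max_eq_right h1.le]
    have : p + (q - p - 1) + 1 = q := by omega
    simp only
    rw [this]
  · rw [min_eq_right h1.le, max_eq_left h1.le]
    have : q + (p - q - 1) + 1 = p := by omega
    simp only
    rw [this, Bool.xor_comm]

theorem le_enc (p q : ℕ) : min p q ≤ enc p q := Nat.left_le_pair _ _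

theorem xbit_meas {r : Ω → ℕ → Bool} (h : FairBits μ r) (m : ℕ) :
    Measurable fun ω => xbit r ω m := by
  have h1 : Measurable fun p : Bool × Bool => xor p.1 p.2 := measurable_of_countable _
  exact h1.comp ((h.1 _).prodMk (h.1 _))

theorem half_aux2 : ((2 : ℕ) : ENNReal) * (1 / 2) ^ 2 = 1 / 2 := by
  rw [one_div, pow_two, ← mul_assoc]
  rw [Nat.cast_ofNat, ENNReal.mul_inv_cancel (by norm_num) (by norm_num), one_mul]

theorem half_aux3 : ((2 : ℕ) : ENNReal) * (1 / 2) ^ 3 = 1 / 4 := by
  rw [one_div, pow_succ' _ 2, ← mul_assoc]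
  rw [Nat.cast_ofNat, ENNReal.mul_inv_cancel (by norm_num) (by norm_num), one_mul, one_div,
    ← ENNReal.inv_pow]
  norm_num

theorem half_aux4 : ((4 : ℕ) : ENNReal) * (1 / 2) ^ 4 = 1 / 4 := by
  have h1 : (1 / 2 : ENNReal) ^ 4 = 4⁻¹ * 4⁻¹ := by
    have h2 : (1 / 2 : ENNReal) ^ 2 = 4⁻¹ := by
      rw [one_div, ← ENNReal.inv_pow]
      norm_num
    rw [← h2, ← pow_add]
  rw [h1, ← mul_assoc, Nat.cast_ofNat, ENNReal.mul_inv_cancel (by norm_num) (by norm_num), one_mul,
    one_div]

theorem xbit_half {r : Ω → ℕ → Bool} (h : FairBits μ r) (m : ℕ) :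
    μ {ω | xbit r ω m = true} = 1 / 2 := by
  have h1 := pat h ![(Nat.unpair m).1, (Nat.unpair m).1 + (Nat.unpair m).2 + 1] (by
    intro x y hxy
    fin_cases x <;> fin_cases y <;> simp_all <;> omega) (fun t => xor (t 0) (t 1) = true)
  have h2 : (Finset.univ.filter fun t : Fin 2 → Bool => xor (t 0) (t 1) = true).card = 2 := by
    decide
  rw [h2, half_aux2] at h1
  exact h1

theorem three {r : Ω → ℕ → Bool} (h : FairBits μ r) {p q s : ℕ} (h1 : p ≠ q) (h2 : p ≠ s)
    (h3 : q ≠ s) : μ {ω | xor (r ω p) (r ω q) = true ∧ xor (r ω p) (r ω s) = true} = 1 / 4 := by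
  have h4 := pat h ![p, q, s] (by
    intro x y hxy
    fin_cases x <;> fin_cases y <;> simp_all) (fun t => xor (t 0) (t 1) = true ∧
      xor (t 0) (t 2) = true)
  have h5 : (Finset.univ.filter fun t : Fin 3 → Bool => xor (t 0) (t 1) = true ∧
      xor (t 0) (t 2) = true).card = 2 := by
    decide
  rw [h5, half_aux3] at h4
  exact h4

theorem four {r : Ω → ℕ → Bool} (h : FairBits μ r) {p q s t : ℕ} (h1 : p ≠ q) (h2 : p ≠ s)
    (h3 : p ≠ t) (h4 : q ≠ s) (h5 : q ≠ t) (h6 : s ≠ t) :
    μ {ω | xor (r ω p) (r ω q) = true ∧ xor (r ω s) (r ω t) = true} = 1 / 4 := by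
  have h7 := pat h ![p, q, s, t] (by
    intro x y hxy
    fin_cases x <;> fin_cases y <;> simp_all) (fun t => xor (t 0) (t 1) = true ∧
      xor (t 2) (t 3) = true)
  have h8 : (Finset.univ.filter fun t : Fin 4 → Bool => xor (t 0) (t 1) = true ∧
      xor (t 2) (t 3) = true).card = 4 := by
    decide
  rw [h8, half_aux4] at h7
  exact h7

theorem xbit_quarter {r : Ω → ℕ → Bool} (h : FairBits μ r) {m m' : ℕ} (hne : m ≠ m') :
    μ {ω | xbit r ω m = true ∧ xbit r ω m' = true} = 1 / 4 := by
  unfold xbit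
  have h0 : (Nat.unpair m).1 ≠ (Nat.unpair m').1 ∨ (Nat.unpair m).2 ≠ (Nat.unpair m').2 := by
    by_contra hcon
    push Not at hcon
    apply hne
    rw [← Nat.pair_unpair m, ← Nat.pair_unpair m', hcon.1, hcon.2]
  generalize (Nat.unpair m).1 = p at *
  generalize (Nat.unpair m').1 = s at *
  obtain ⟨q, hq⟩ : ∃ q, q = p + (Nat.unpair m).2 + 1 := ⟨_, rfl⟩
  obtain ⟨t, ht⟩ : ∃ t, t = s + (Nat.unpair m').2 + 1 := ⟨_, rfl⟩
  rw [← hq, ← ht]
  have hpq : p < q := by omega
  have hst : s < t := by omega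
  have h1 : p ≠ s ∨ q ≠ t := by omega
  clear hq ht h0 hne
  by_cases c1 : p = s
  · subst c1
    exact three h hpq.ne hst.ne (by omega)
  · by_cases c2 : q = t
    · subst c2
      have := three h hpq.ne' hst.ne' c1
      simpa only [Bool.xor_comm] using this
    · by_cases c3 : p = t
      · subst c3
        have := three h hpq.ne hst.ne' (by omega)
        simpa only [Bool.xor_comm] using this
      · by_cases c4 : q = s
        · subst c4
          have := three h hpq.ne' hst.ne (by omega)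
          simpa only [Bool.xor_comm] using this
        · exact four h hpq.ne c1 c3 c4 c2 hst.ne

end Pool.Agent.H622
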