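import Pool.Agent.H622_Rnd.Line

/-!
# No uncountable suborder of the random line satisfies the countable chain condition
-/

set_option autoImplicit false

open Set

namespace Pool.Agent.H622

open Pool.Agent.Helper594.Ctry
open Pool.Agent.H497 (exists_fiber exists_three)

variable {W : Type} [LinearOrder W] [WellFoundedLT W] [Uncountable W]

/-- The line contains no Suslin line: every uncountable suborder has an uncountable family of
pairwise disjoint nonempty open intervals. -/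
theorem rline_not_ccc (hW : ∀ δ : W, (Iio δ).Countable) {a : W → W → ℕ} (ha : IsCohFam a)
    (j : W → (W → ℕ) → ℕ) (r : ℕ → Bool) : NoSuslin (RLine a j r) := by
  classical
  intro s hs
  have := noMax hW
  choose d hd using fun ξ : W => exists_gt ξ
  have h1 := ix_image hs
  have hex : ∀ ξ : W, ∃ u, ¬ (cone a (ix a j r '' s) (d ξ) u).Countable := by
    intro ξ
    by_contra h
    push Not at h
    apply h1
    have := cover_cone hW ha (Y := ix a j r '' s) (d ξ) (P := ∅) (fun u _ => h u)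
    simpa using this
  choose u hu using hex
  have h3 : ∀ ξ : W, ∃ x y z : s, x < y ∧ y < z ∧ restr (d ξ) (word a (ix a j r x.1)) = u ξ ∧
      restr (d ξ) (word a (ix a j r z.1)) = u ξ := by
    intro ξ
    have h2 : ¬ {x | x ∈ s ∧ restr (d ξ) (word a (ix a j r x)) = u ξ}.Countable := by
      intro h
      apply hu ξ
      refine (h.image (ix a j r)).mono ?_
      rintro _ ⟨⟨z, hz, rfl⟩, hz'⟩
      exact ⟨z, ⟨hz, hz'⟩, rfl⟩
    obtain ⟨x, hx, y, hy, z, hz, hxy, hyz⟩ := exists_three h2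
    exact ⟨⟨x, hx.1⟩, ⟨y, hy.1⟩, ⟨z, hz.1⟩, hxy, hyz, hx.2, hz.2⟩
  choose x y z hxy hyz hx hz using h3
  have hcone : ∀ (ξ : W) (w : s), x ξ < w → w < z ξ →
      restr (d ξ) (word a (ix a j r w.1)) = u ξ := fun ξ w h4 h5 =>
    rline_convex (Subtype.coe_le_coe.2 h4.le) (Subtype.coe_le_coe.2 h5.le) (hx ξ) (hz ξ)
  -- the small values
  have hfin : ∀ ξ : W, {ζ | ζ ≤ ξ ∧ u ξ ζ ≤ u ξ ξ}.Finite := by
    intro ξ
    obtain ⟨α, hα, hlt⟩ := exists_gt_mem hW (hu ξ) ξ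
    refine (finite_small ha α (u ξ ξ)).subset ?_
    rintro ζ ⟨h4, h5⟩
    refine ⟨h4.trans_lt hlt, ?_⟩
    have h6 : u ξ ζ = word a α ζ := by
      rw [← hα.2]
      unfold restr
      rw [if_pos (h4.trans_lt (hd ξ))]
    rw [← h6]
    exact h5
  obtain ⟨⟨v, k⟩, hΞ⟩ := exists_fiber (s := (univ : Set W))
    (fun h => not_countable (α := W) (Set.countable_univ_iff.1 h))
    (fun ξ => (u ξ ξ, (hfin ξ).toFinset.card))
  have key : ∀ ξ ∈ {ξ ∈ (univ : Set W) | (u ξ ξ, (hfin ξ).toFinset.card) = (v, k)},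
      ∀ η ∈ {ξ ∈ (univ : Set W) | (u ξ ξ, (hfin ξ).toFinset.card) = (v, k)}, ξ < η →
      ∀ w : s, x ξ < w → w < z ξ → x η < w → w < z η → False := by
    rintro ξ ⟨-, hξ⟩ η ⟨-, hη⟩ hlt w w1 w2 w3 w4
    have e1 := hcone ξ w w1 w2
    have e2 := hcone η w w3 w4
    have hv1 : u ξ ξ = v := congrArg Prod.fst hξ
    have hv2 : u η η = v := congrArg Prod.fst hη
    have hk1 : (hfin ξ).toFinset.card = k := congrArg Prod.snd hξ
    have hk2 : (hfin η).toFinset.card = k := congrArg Prod.snd hη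
    have hag : ∀ ζ ≤ ξ, u ξ ζ = u η ζ := by
      intro ζ hζ
      rw [← e1, ← e2]
      unfold restr
      rw [if_pos (hζ.trans_lt (hd ξ)), if_pos ((hζ.trans_lt hlt).trans (hd η))]
    have hlt' : (hfin ξ).toFinset.card < (hfin η).toFinset.card := by
      apply Finset.card_lt_card
      rw [Finset.ssubset_iff_of_subset]
      · refine ⟨η, ?_, ?_⟩
        · rw [Set.Finite.mem_toFinset]
          exact ⟨le_rfl, le_rfl⟩
        · rw [Set.Finite.mem_toFinset]
          exact fun h => absurd h.1 (not_le.2 hlt)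
      · intro ζ hζ
        rw [Set.Finite.mem_toFinset] at hζ ⊢
        refine ⟨hζ.1.trans hlt.le, ?_⟩
        rw [← hag ζ hζ.1, hv2, ← hv1]
        exact hζ.2
    omega
  have hdis : ∀ ξ ∈ {ξ ∈ (univ : Set W) | (u ξ ξ, (hfin ξ).toFinset.card) = (v, k)},
      ∀ η ∈ {ξ ∈ (univ : Set W) | (u ξ ξ, (hfin ξ).toFinset.card) = (v, k)}, ξ ≠ η →
      Disjoint (Ioo (x ξ) (z ξ)) (Ioo (x η) (z η)) := by
    intro ξ hξ η hη hne
    rw [Set.disjoint_left]
    rintro w ⟨w1, w2⟩ ⟨w3, w4⟩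
    rcases lt_or_gt_of_ne hne with h | h
    · exact key ξ hξ η hη h w w1 w2 w3 w4
    · exact key η hη ξ hξ h w w3 w4 w1 w2
  refine ⟨(fun ξ => Ioo (x ξ) (z ξ)) ''
    {ξ ∈ (univ : Set W) | (u ξ ξ, (hfin ξ).toFinset.card) = (v, k)}, ?_, ?_, ?_⟩
  · rintro _ ⟨ξ, -, rfl⟩
    exact ⟨⟨y ξ, hxy ξ, hyz ξ⟩, x ξ, z ξ, rfl⟩
  · rintro _ ⟨ξ, hξ, rfl⟩ _ ⟨η, hη, rfl⟩ hne
    exact hdis ξ hξ η hη fun h => hne (by rw [h])
  · intro hc
    apply hΞ
    refine countable_of_injective_of_countable_image (f := fun ξ => Ioo (x ξ) (z ξ)) ?_ hc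
    intro ξ hξ η hη h
    by_contra hne
    have h4 := hdis ξ hξ η hη hne
    have h5 : (Ioo (x ξ) (z ξ)) = Ioo (x η) (z η) := h
    rw [← h5, disjoint_self] at h4
    exact (show (Ioo (x ξ) (z ξ)).Nonempty from ⟨y ξ, hxy ξ, hyz ξ⟩).ne_empty h4

end Pool.Agent.H622
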