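import Pool.Agent.H622_Rnd.Line

/-!
# Pairs of points of the same type split at the same place, by the same values
-/

set_option autoImplicit false

open Set

namespace Pool.Agent.H622

open Pool.Agent.Helper594.Ctry

section Core

variable {W : Type} [LinearOrder W]

theorem same_split {α β α' β' : W} {n : ℕ} {x y x' y' : W → ℕ} {D D' : Finset W}
    (hx : ∀ ξ, x ξ = 0 ↔ α ≤ ξ) (hy : ∀ ξ, y ξ = 0 ↔ β ≤ ξ)
    (hx' : ∀ ξ, x' ξ = 0 ↔ α' ≤ ξ) (hy' : ∀ ξ, y' ξ = 0 ↔ β' ≤ ξ)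
    (hαβ : α < β) (hαβ' : α' < β')
    (hD : ∀ ξ, ξ ∈ D ↔ ξ < β ∧ y ξ ≤ n) (hD' : ∀ ξ, ξ ∈ D' ↔ ξ < β' ∧ y' ξ ≤ n)
    (hn : ∀ ξ < α, x ξ ≠ y ξ → x ξ ≤ n ∧ y ξ ≤ n) (hn2 : y α ≤ n)
    (hn' : ∀ ξ < α', x' ξ ≠ y' ξ → x' ξ ≤ n ∧ y' ξ ≤ n) (hn2' : y' α' ≤ n)
    (hτ : code D (fun ξ => (x ξ, y ξ)) = code D' (fun ξ => (x' ξ, y' ξ)))
    (hne : α ≠ α') {ξ : W} (hag : ∀ ζ < ξ, y ζ = y' ζ) (hyne : y ξ ≠ y' ξ) :
    (∀ ζ < ξ, x ζ = x' ζ) ∧ x ξ ≠ x' ξ ∧ max (x ξ) (x' ξ) = max (y ξ) (y' ξ) := by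
  have hDD : ∀ ζ < ξ, (ζ ∈ D ↔ ζ ∈ D') := by
    intro ζ hζ
    rw [hD, hD', hag ζ hζ]
    have h1 : ζ < β ↔ ζ < β' := by
      rw [← not_iff_not, not_lt, not_lt, ← hy, ← hy', hag ζ hζ]
    rw [h1]
  have hfil : ∀ ζ ≤ ξ, D.filter (· < ζ) = D'.filter (· < ζ) := by
    intro ζ hζ
    ext η
    rw [Finset.mem_filter, Finset.mem_filter]
    constructor
    · rintro ⟨h1, h2⟩
      exact ⟨(hDD η (h2.trans_le hζ)).1 h1, h2⟩
    · rintro ⟨h1, h2⟩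
      exact ⟨(hDD η (h2.trans_le hζ)).2 h1, h2⟩
  have hαD : α ∈ D := (hD α).2 ⟨hαβ, hn2⟩
  have hαD' : α' ∈ D' := (hD' α').2 ⟨hαβ', hn2'⟩
  have hmatch : ∀ ζ ≤ ξ, ζ ∈ D → ζ ∈ D' → x ζ = x' ζ ∧ y ζ = y' ζ := by
    intro ζ hζ h1 h2
    have h3 := code_match hτ h1 h2 (by rw [hfil ζ hζ])
    exact ⟨congrArg Prod.fst h3, congrArg Prod.snd h3⟩
  have hE0 : α < ξ → α' ≤ α := by
    intro h
    rw [← hx', ← (hmatch α h.le hαD ((hDD α h).1 hαD)).1, hx]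
  have hE0' : α' < ξ → α ≤ α' := by
    intro h
    rw [← hx, (hmatch α' h.le ((hDD α' h).2 hαD') hαD').1, hx']
  have h1 : ξ ≤ α := by
    by_contra h
    rw [not_le] at h
    have h2 := hE0 h
    exact hne (le_antisymm (hE0' (h2.trans_lt h)) h2)
  have h2 : ξ ≤ α' := by
    by_contra h
    rw [not_le] at h
    have h2 := hE0' h
    exact hne (le_antisymm h2 (hE0 (h2.trans_lt h)))
  have hxag : ∀ ζ < ξ, x ζ = x' ζ := by
    intro ζ hζ
    by_cases hζD : ζ ∈ D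
    · exact (hmatch ζ hζ.le hζD ((hDD ζ hζ).1 hζD)).1
    · have hζD' : ζ ∉ D' := fun h => hζD ((hDD ζ hζ).2 h)
      have h3 : x ζ = y ζ := by
        by_contra h
        exact hζD ((hD ζ).2 ⟨(hζ.trans_le h1).trans hαβ, (hn ζ (hζ.trans_le h1) h).2⟩)
      have h4 : x' ζ = y' ζ := by
        by_contra h
        exact hζD' ((hD' ζ).2 ⟨(hζ.trans_le h2).trans hαβ', (hn' ζ (hζ.trans_le h2) h).2⟩)
      rw [h3, h4, hag ζ hζ]
  have hξβ : ξ < β := h1.trans_lt hαβ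
  have hξβ' : ξ < β' := h2.trans_lt hαβ'
  refine ⟨hxag, ?_⟩
  have hsm : y ξ ≤ n → x ξ ≤ n := by
    intro h3
    rcases h1.lt_or_eq with h9 | h9
    · by_cases h10 : x ξ = y ξ
      · omega
      · exact (hn ξ h9 h10).1
    · rw [(hx ξ).2 h9.ge]
      exact Nat.zero_le _
  have hsm' : y' ξ ≤ n → x' ξ ≤ n := by
    intro h3
    rcases h2.lt_or_eq with h9 | h9
    · by_cases h10 : x' ξ = y' ξ
      · omega
      · exact (hn' ξ h9 h10).1
    · rw [(hx' ξ).2 h9.ge]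
      exact Nat.zero_le _
  have hlg : n < y ξ → x ξ = y ξ := by
    intro h3
    have h5 : ξ ≠ α := by
      rintro rfl
      omega
    by_contra h
    have := (hn ξ (lt_of_le_of_ne h1 h5) h).2
    omega
  have hlg' : n < y' ξ → x' ξ = y' ξ := by
    intro h3
    have h5 : ξ ≠ α' := by
      rintro rfl
      omega
    by_contra h
    have := (hn' ξ (lt_of_le_of_ne h2 h5) h).2
    omega
  rcases le_or_gt (y ξ) n with h3 | h3
  · rcases le_or_gt (y' ξ) n with h4 | h4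
    · have := (hmatch ξ le_rfl ((hD ξ).2 ⟨hξβ, h3⟩) ((hD' ξ).2 ⟨hξβ', h4⟩)).2
      exact absurd this hyne
    · have h5 := hsm h3
      have h6 := hlg' h4
      omega
  · rcases le_or_gt (y' ξ) n with h4 | h4
    · have h5 := hsm' h4
      have h6 := hlg h3
      omega
    · have h5 := hlg h3
      have h6 := hlg' h4
      omega

end Core

section Fam

variable {W : Type} [LinearOrder W] [WellFoundedLT W] [Uncountable W]

theorem cone_subset (a : W → W → ℕ) (Y : Set W) (δ : W) (u : W → ℕ) : cone a Y δ u ⊆ Y :=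
  fun _ h => h.1

/-- infinitely many uncountable subsets, in pairwise disjoint cones -/
theorem exists_comb (hW : ∀ δ : W, (Iio δ).Countable) {a : W → W → ℕ} (ha : IsCohFam a)
    {Y : Set W} (hY : ¬ Y.Countable) :
    ∃ A : ℕ → Set W, (∀ k, A k ⊆ Y ∧ ¬ (A k).Countable) ∧
      ∀ k l, k < l → ∃ (δ : W) (u v : W → ℕ), u ≠ v ∧ (∀ α ∈ A k, restr δ (word a α) = u) ∧
        ∀ α ∈ A l, restr δ (word a α) = v := by
  classical
  choose D U V hUV hU hV using fun Z : {Z : Set W // ¬ Z.Countable} => exists_two hW ha Z.2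
  let nx : {Z : Set W // ¬ Z.Countable} → {Z : Set W // ¬ Z.Countable} := fun Z =>
    ⟨cone a Z.1 (D Z) (V Z), hV Z⟩
  let Z : ℕ → {Z : Set W // ¬ Z.Countable} := fun n => nx^[n] ⟨Y, hY⟩
  have hZs : ∀ n, Z (n + 1) = nx (Z n) := fun n => Function.iterate_succ_apply' nx n _
  have hmono1 : ∀ n, (Z (n + 1)).1 ⊆ (Z n).1 := by
    intro n
    rw [hZs]
    exact cone_subset a _ _ _
  have hanti : ∀ m n, m ≤ n → (Z n).1 ⊆ (Z m).1 := by
    intro m n h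
    induction n, h using Nat.le_induction with
    | base => exact Subset.rfl
    | succ n _ ih => exact (hmono1 n).trans ih
  refine ⟨fun n => cone a (Z n).1 (D (Z n)) (U (Z n)), fun k => ⟨?_, hU (Z k)⟩, ?_⟩
  · exact (cone_subset a _ _ _).trans (hanti 0 k (Nat.zero_le _))
  · intro k l hkl
    refine ⟨D (Z k), U (Z k), V (Z k), hUV (Z k), fun α hα => hα.2, fun α hα => ?_⟩
    have h1 : α ∈ (Z (k + 1)).1 := hanti (k + 1) l hkl hα.1
    rw [hZs] at h1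
    exact h1.2

/-- a function which is larger than the identity is injective on an uncountable subset -/
theorem exists_injOn (hW : ∀ δ : W, (Iio δ).Countable) {I : Set W} (hI : ¬ I.Countable) {f : W → W}
    (hf : ∀ τ, τ < f τ) : ∃ I' ⊆ I, ¬ I'.Countable ∧ Set.InjOn f I' := by
  obtain ⟨I', h1, h2⟩ := Set.exists_subset_bijOn I f
  refine ⟨I', h1, fun h3 => ?_, h2.injOn⟩
  have h4 : (f '' I).Countable := by
    rw [← h2.image_eq]
    exact h3.image f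
  obtain ⟨b, hb⟩ := countable_bdd hW h4
  obtain ⟨τ, hτ, hlt⟩ := exists_gt_mem hW hI b
  exact absurd ((hb (f τ) ⟨τ, hτ, rfl⟩).trans hlt) (not_lt.2 (hf τ).le)

/-- The two bits which decide the comparisons of two pairs. -/
theorem exists_bits2 (hW : ∀ δ : W, (Iio δ).Countable) {a : W → W → ℕ} (ha : IsCohFam a)
    {j : W → (W → ℕ) → ℕ} (hj : Enum a j) {I : Set W} (hI : ¬ I.Countable) {p q : W → W}
    (hp : ∀ τ, τ < p τ) (hq : ∀ τ, τ < q τ) {δ : W} {u v : W → ℕ} (huv : u ≠ v)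
    (hpu : ∀ τ ∈ I, restr δ (word a (p τ)) = u) (hqv : ∀ τ ∈ I, restr δ (word a (q τ)) = v) :
    ∃ I' ⊆ I, ¬ I'.Countable ∧ ∃ (m n : W → W → ℕ) (s t : W → W → Bool),
      (∀ τ ∈ I', ∀ σ ∈ I', τ ≠ σ → m τ σ ≠ n τ σ ∧
        (∀ r, rkey a j r (p τ) < rkey a j r (p σ) ↔ r (m τ σ) = s τ σ) ∧
        (∀ r, rkey a j r (q τ) < rkey a j r (q σ) ↔ r (n τ σ) = t τ σ) ∧
        p τ ≠ p σ ∧ q τ ≠ q σ) ∧
      ∀ N, ∀ Y ⊆ I', ¬ Y.Countable → ∃ Z ⊆ Y, ¬ Z.Countable ∧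
        ∀ τ ∈ Z, ∀ σ ∈ Z, τ ≠ σ → N ≤ m τ σ ∧ N ≤ n τ σ := by
  classical
  have hpq : ∀ τ ∈ I, p τ ≠ q τ := by
    intro τ hτ h
    apply huv
    rw [← hpu τ hτ, ← hqv τ hτ, h]
  -- the bound of the differences
  have hb : ∀ α β : W, ∃ n, α < β →
      (∀ ξ < α, word a α ξ ≠ word a β ξ → word a α ξ ≤ n ∧ word a β ξ ≤ n) ∧ word a β α ≤ n := by
    intro α β
    by_cases h : α < β
    · obtain ⟨n, hn⟩ := exists_bound ha h
      exact ⟨n, fun _ => hn⟩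
    · exact ⟨0, fun h' => (h h').elim⟩
  choose B hB using hb
  let lo : W → W := fun τ => min (p τ) (q τ)
  let hi : W → W := fun τ => max (p τ) (q τ)
  have hlohi : ∀ τ ∈ I, lo τ < hi τ := fun τ hτ => min_lt_max.2 (hpq τ hτ)
  let ty : W → Bool × ℕ × Finset (ℕ × ℕ × ℕ) := fun τ =>
    (decide (p τ < q τ), B (lo τ) (hi τ), code (small ha (hi τ) (B (lo τ) (hi τ)))
      (fun ξ => (word a (lo τ) ξ, word a (hi τ) ξ)))
  obtain ⟨c, hc⟩ := Pool.Agent.H497.exists_fiber hI ty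
  obtain ⟨I1, hI1, hI1c, hI1p⟩ := exists_injOn hW hc hp
  obtain ⟨I2, hI2, hI2c, hI2q⟩ := exists_injOn hW hI1c hq
  have hI2I : I2 ⊆ I := fun τ hτ => (hI1 (hI2 hτ)).1
  have hty : ∀ τ ∈ I2, ty τ = c := fun τ hτ => (hI1 (hI2 hτ)).2
  -- the splits agree
  have hsplit : ∀ τ ∈ I2, ∀ σ ∈ I2, τ ≠ σ → ∃ Δ, (∀ ζ < Δ, word a (p τ) ζ = word a (p σ) ζ) ∧
      (∀ ζ < Δ, word a (q τ) ζ = word a (q σ) ζ) ∧ word a (p τ) Δ ≠ word a (p σ) Δ ∧
      word a (q τ) Δ ≠ word a (q σ) Δ ∧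
      max (word a (p τ) Δ) (word a (p σ) Δ) = max (word a (q τ) Δ) (word a (q σ) Δ) := by
    intro τ hτ σ hσ hne
    have hpne : p τ ≠ p σ := fun h => hne (hI1p (hI2 hτ) (hI2 hσ) h)
    have hqne : q τ ≠ q σ := fun h => hne (hI2q hτ hσ h)
    have ht : ty τ = ty σ := (hty τ hτ).trans (hty σ hσ).symm
    have ht1 : decide (p τ < q τ) = decide (p σ < q σ) := congrArg Prod.fst ht
    have ht2 : B (lo τ) (hi τ) = B (lo σ) (hi σ) := congrArg (fun z => z.2.1) ht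
    have ht3 : code (small ha (hi τ) (B (lo τ) (hi τ)))
        (fun ξ => (word a (lo τ) ξ, word a (hi τ) ξ)) =
        code (small ha (hi σ) (B (lo σ) (hi σ)))
        (fun ξ => (word a (lo σ) ξ, word a (hi σ) ξ)) := congrArg (fun z => z.2.2) ht
    have h3 := hB (lo τ) (hi τ) (hlohi τ (hI2I hτ))
    have h3' := hB (lo σ) (hi σ) (hlohi σ (hI2I hσ))
    rw [← ht2] at ht3 h3'
    have hmain : lo τ ≠ lo σ → hi τ ≠ hi σ →
        ∃ Δ, (∀ ζ < Δ, word a (lo τ) ζ = word a (lo σ) ζ) ∧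
        (∀ ζ < Δ, word a (hi τ) ζ = word a (hi σ) ζ) ∧ word a (lo τ) Δ ≠ word a (lo σ) Δ ∧
        word a (hi τ) Δ ≠ word a (hi σ) Δ ∧
        max (word a (lo τ) Δ) (word a (lo σ) Δ) = max (word a (hi τ) Δ) (word a (hi σ) Δ) := by
      intro hl hh
      obtain ⟨Δ, h4, h5⟩ := exists_split a hh
      have h6 := same_split (n := B (lo τ) (hi τ)) (word_eq_zero a (lo τ)) (word_eq_zero a (hi τ))
        (word_eq_zero a (lo σ)) (word_eq_zero a (hi σ)) (hlohi τ (hI2I hτ)) (hlohi σ (hI2I hσ))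
        (fun ξ => mem_small ha) (fun ξ => mem_small ha) h3.1 h3.2 h3'.1 h3'.2 ht3 hl h4 h5
      exact ⟨Δ, h6.1, h4, h6.2.1, h5, h6.2.2⟩
    by_cases hlt : p τ < q τ
    · have hlt' : p σ < q σ := by
        rw [decide_eq_true hlt] at ht1
        exact of_decide_eq_true ht1.symm
      have e1 : lo τ = p τ := min_eq_left hlt.le
      have e2 : hi τ = q τ := max_eq_right hlt.le
      have e3 : lo σ = p σ := min_eq_left hlt'.le
      have e4 : hi σ = q σ := max_eq_right hlt'.le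
      rw [e1, e2, e3, e4] at hmain
      obtain ⟨Δ, h4, h5, h6, h7, h8⟩ := hmain hpne hqne
      exact ⟨Δ, h4, h5, h6, h7, h8⟩
    · have hlt' : ¬ p σ < q σ := by
        rw [decide_eq_false hlt] at ht1
        exact of_decide_eq_false ht1.symm
      rw [not_lt] at hlt hlt'
      have e1 : lo τ = q τ := min_eq_right hlt
      have e2 : hi τ = p τ := max_eq_left hlt
      have e3 : lo σ = q σ := min_eq_right hlt'
      have e4 : hi σ = p σ := max_eq_left hlt'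
      rw [e1, e2, e3, e4] at hmain
      obtain ⟨Δ, h4, h5, h6, h7, h8⟩ := hmain hqne hpne
      exact ⟨Δ, h5, h4, h7, h6, h8.symm⟩
  have hsplit' : ∀ τ σ : W, ∃ Δ, τ ∈ I2 → σ ∈ I2 → τ ≠ σ →
      (∀ ζ < Δ, word a (p τ) ζ = word a (p σ) ζ) ∧
      (∀ ζ < Δ, word a (q τ) ζ = word a (q σ) ζ) ∧ word a (p τ) Δ ≠ word a (p σ) Δ ∧
      word a (q τ) Δ ≠ word a (q σ) Δ ∧
      max (word a (p τ) Δ) (word a (p σ) Δ) = max (word a (q τ) Δ) (word a (q σ) Δ) := by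
    intro τ σ
    by_cases h : τ ∈ I2 ∧ σ ∈ I2 ∧ τ ≠ σ
    · obtain ⟨Δ, hΔ⟩ := hsplit τ h.1 σ h.2.1 h.2.2
      exact ⟨Δ, fun _ _ _ => hΔ⟩
    · exact ⟨τ, fun h1 h2 h3 => (h ⟨h1, h2, h3⟩).elim⟩
  choose Δ hΔ using hsplit'
  refine ⟨I2, hI2I, hI2c,
    fun τ σ => Nat.pair (j (Δ τ σ) (restr (Δ τ σ) (word a (p τ))))
      (max (word a (p τ) (Δ τ σ)) (word a (p σ) (Δ τ σ)) - 1),
    fun τ σ => Nat.pair (j (Δ τ σ) (restr (Δ τ σ) (word a (q τ))))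
      (max (word a (q τ) (Δ τ σ)) (word a (q σ) (Δ τ σ)) - 1),
    fun τ σ => decide (word a (p τ) (Δ τ σ) < word a (p σ) (Δ τ σ)),
    fun τ σ => decide (word a (q τ) (Δ τ σ) < word a (q σ) (Δ τ σ)), ?_, ?_⟩
  · intro τ hτ σ hσ hne
    obtain ⟨h1, h2, h3, h4, h5⟩ := hΔ τ σ hτ hσ hne
    refine ⟨?_, fun r => rkey_lt_iff a j r h1 h3, fun r => rkey_lt_iff a j r h2 h4,
      fun h => h3 (by rw [h]), fun h => h4 (by rw [h])⟩
    intro h
    have h6 := (Nat.pair_eq_pair.1 h).1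
    have h7 : restr (Δ τ σ) (word a (p τ)) = restr (Δ τ σ) (word a (q τ)) :=
      hj (Δ τ σ) ⟨p τ, rfl⟩ ⟨q τ, rfl⟩ h6
    have h8 : δ ≤ Δ τ σ := by
      by_contra hlt
      rw [not_le] at hlt
      have h9 : restr δ (word a (p τ)) = restr δ (word a (p σ)) :=
        (hpu τ (hI2I hτ)).trans (hpu σ (hI2I hσ)).symm
      rw [restr_eq_iff] at h9
      exact h3 (h9 _ hlt)
    apply huv
    rw [← hpu τ (hI2I hτ), ← hqv τ (hI2I hτ), ← restr_restr h8, h7, restr_restr h8]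
  · intro N Y hY hYc
    obtain ⟨c', hc'⟩ := Pool.Agent.H497.exists_fiber hYc
      (fun τ => code (small ha (p τ) (N + 1)) (word a (p τ)))
    refine ⟨_, fun τ hτ => hτ.1, hc', ?_⟩
    intro τ hτ σ hσ hne
    obtain ⟨h1, h2, h3, h4, h5⟩ := hΔ τ σ (hY hτ.1) (hY hσ.1) hne
    have h6 := large_of_type ha (N := N + 1) (fun h => h3 (by rw [h])) (hτ.2.trans hσ.2.symm) h1 h3
    have h7 : N ≤ max (word a (p τ) (Δ τ σ)) (word a (p σ) (Δ τ σ)) - 1 := by omega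
    have h8 : N ≤ max (word a (q τ) (Δ τ σ)) (word a (q σ) (Δ τ σ)) - 1 := by
      rw [← h5]
      exact h7
    exact ⟨h7.trans (Nat.right_le_pair _ _), h8.trans (Nat.right_le_pair _ _)⟩

end Fam

end Pool.Agent.H622
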