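import Pool.Agent.Helper594_Ctry.Cof
import Pool.Agent.Helper594_Ctry.Signed

/-!
# The line of a coherent family and a sequence of bits, one order of the values at every node
-/

set_option autoImplicit false

open Set

namespace Pool.Agent.H622

open Pool.Agent.Helper594.Ctry

/-- An Aronszajn line: an uncountable linear order in which every well-ordered suborder, every
conversely well-ordered suborder and every suborder which embeds into the reals is countable. -/
def IsAronszajn (L : Type) [LinearOrder L] : Prop :=
  Uncountable L ∧ (∀ s : Set L, s.WellFoundedOn (· < ·) → s.Countable) ∧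
    (∀ s : Set L, s.WellFoundedOn (· > ·) → s.Countable) ∧
    ∀ s : Set L, (∃ f : s → ℝ, StrictMono f) → s.Countable

/-- No suborder of `L` is a Suslin line: every uncountable suborder has an uncountable family of
pairwise disjoint nonempty open intervals. -/
def NoSuslin (L : Type) [LinearOrder L] : Prop :=
  ∀ s : Set L, ¬ s.Countable → ∃ F : Set (Set s), (∀ I ∈ F, I.Nonempty ∧ ∃ x y : s, I = Ioo x y) ∧
    F.PairwiseDisjoint id ∧ ¬ F.Countable

section

variable {W : Type} [LinearOrder W]

/-- `j` enumerates, for every `ξ`, the restrictions to the places below `ξ` of the functions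
`word a δ`. -/
def Enum (a : W → W → ℕ) (j : W → (W → ℕ) → ℕ) : Prop :=
  ∀ ξ, Set.InjOn (j ξ) (Set.range fun δ => restr ξ (word a δ))

/-- the bits which order the values at the place `ξ` of the functions which extend the restriction
of `y` to the places below `ξ` -/
def nbits (j : W → (W → ℕ) → ℕ) (r : ℕ → Bool) (y : W → ℕ) (ξ : W) (n : ℕ) : Bool :=
  r (Nat.pair (j ξ (restr ξ y)) n)

/-- the key of `δ` -/
def rkey (a : W → W → ℕ) (j : W → (W → ℕ) → ℕ) (r : ℕ → Bool) (δ : W) : Lex (W → ℤ) :=
  toLex fun ξ => sg (nbits j r (word a δ) ξ) (word a δ ξ)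

/-- the line of the keys -/
abbrev RLine [WellFoundedLT W] (a : W → W → ℕ) (j : W → (W → ℕ) → ℕ) (r : ℕ → Bool) : Type :=
  ↥(Set.range (rkey a j r))

end

end Pool.Agent.H622
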