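import Pool.Agent.H622_Rnd.Defs
import Pool.Agent.H497_Compat.Country

/-!
# The random line is an Aronszajn line
-/

set_option autoImplicit false

open Set

namespace Pool.Agent.H622

open Pool.Agent.Helper594.Ctry
open Pool.Agent.H497 (exists_init exists_three)

section Basic

variable {W : Type} [LinearOrder W]

theorem restr_restr {α β : W} (h : α ≤ β) (y : W → ℕ) : restr α (restr β y) = restr α y := by
  rw [restr_eq_iff]
  intro ξ hξ
  unfold restr
  rw [if_pos (hξ.trans_le h)]

theorem nbits_congr (j : W → (W → ℕ) → ℕ) (r : ℕ → Bool) {y z : W → ℕ} {Δ ξ : W}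
    (h : ∀ ζ < Δ, y ζ = z ζ) (hξ : ξ ≤ Δ) : nbits j r y ξ = nbits j r z ξ := by
  have h1 : restr ξ y = restr ξ z := restr_eq_iff.2 fun ζ hζ => h ζ (hζ.trans_le hξ)
  funext n
  unfold nbits
  rw [h1]

variable [WellFoundedLT W]

/-- The comparison of two points depends on one bit. -/
theorem rkey_lt_iff (a : W → W → ℕ) (j : W → (W → ℕ) → ℕ) (r : ℕ → Bool) {α β Δ : W}
    (h1 : ∀ ζ < Δ, word a α ζ = word a β ζ) (h2 : word a α Δ ≠ word a β Δ) :
    rkey a j r α < rkey a j r β ↔
      r (Nat.pair (j Δ (restr Δ (word a α))) (max (word a α Δ) (word a β Δ) - 1)) =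
        decide (word a α Δ < word a β Δ) := by
  have h3 : sg (nbits j r (word a α) Δ) (word a α Δ) < sg (nbits j r (word a α) Δ) (word a β Δ) ↔
      r (Nat.pair (j Δ (restr Δ (word a α))) (max (word a α Δ) (word a β Δ) - 1)) =
        decide (word a α Δ < word a β Δ) := sg_lt_iff' _ h2
  rw [← h3]
  have hag : ∀ ζ < Δ, sg (nbits j r (word a α) ζ) (word a α ζ) =
      sg (nbits j r (word a β) ζ) (word a β ζ) := by
    intro ζ hζ
    rw [nbits_congr j r h1 hζ.le, h1 ζ hζ]
  have hΔ := nbits_congr j r h1 le_rfl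
  constructor
  · rintro ⟨Δ', h4, h5⟩
    have h6 : Δ' = Δ := by
      rcases lt_trichotomy Δ Δ' with h6 | h6 | h6
      · have h7 : sg (nbits j r (word a α) Δ) (word a α Δ) =
            sg (nbits j r (word a β) Δ) (word a β Δ) := h4 Δ h6
        rw [← hΔ] at h7
        exact absurd (sg_inj _ h7) h2
      · exact h6.symm
      · have h7 : sg (nbits j r (word a α) Δ') (word a α Δ') <
            sg (nbits j r (word a β) Δ') (word a β Δ') := h5
        rw [hag Δ' h6] at h7
        exact absurd h7 (lt_irrefl _)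
    subst h6
    have h7 : sg (nbits j r (word a α) Δ') (word a α Δ') <
            sg (nbits j r (word a β) Δ') (word a β Δ') := h5
    rwa [← hΔ] at h7
  · intro h4
    refine ⟨Δ, hag, ?_⟩
    show sg (nbits j r (word a α) Δ) (word a α Δ) < sg (nbits j r (word a β) Δ) (word a β Δ)
    rw [← hΔ]
    exact h4

theorem rkey_inj (a : W → W → ℕ) (j : W → (W → ℕ) → ℕ) (r : ℕ → Bool) :
    Function.Injective (rkey a j r) := by
  intro α β h
  by_contra hne
  obtain ⟨Δ, h1, h2⟩ := exists_split a hne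
  have h3 : sg (nbits j r (word a α) Δ) (word a α Δ) =
      sg (nbits j r (word a β) Δ) (word a β Δ) := congrFun h Δ
  rw [← nbits_congr j r h1 le_rfl] at h3
  exact h2 (sg_inj _ h3)

/-- cones are convex -/
theorem rkey_convex (a : W → W → ℕ) (j : W → (W → ℕ) → ℕ) (r : ℕ → Bool) {δ α β γ : W}
    (h1 : rkey a j r α ≤ rkey a j r β) (h2 : rkey a j r β ≤ rkey a j r γ)
    (h : restr δ (word a α) = restr δ (word a γ)) :
    restr δ (word a β) = restr δ (word a α) := by
  by_contra hne
  have hαβ : α ≠ β := fun h' => hne (by rw [h'])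
  obtain ⟨Δ, h3, h4⟩ := exists_split a hαβ
  have hΔ : Δ < δ := by
    by_contra hlt
    apply hne
    rw [restr_eq_iff]
    intro ξ hξ
    exact (h3 ξ (hξ.trans_le (not_lt.1 hlt))).symm
  rw [restr_eq_iff] at h
  have h5 : ∀ ζ < Δ, word a γ ζ = word a β ζ := fun ζ hζ => by
    rw [← h ζ (hζ.trans hΔ), h3 ζ hζ]
  have h6 : word a γ Δ ≠ word a β Δ := by
    rw [← h Δ hΔ]
    exact h4
  have h7 := rkey_lt_iff a j r h3 h4
  have h8 := rkey_lt_iff a j r h5 h6
  have h9 : restr Δ (word a γ) = restr Δ (word a α) := by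
    rw [restr_eq_iff]
    intro ζ hζ
    exact (h ζ (hζ.trans hΔ)).symm
  rw [h9, ← h Δ hΔ, ← h7] at h8
  have h10 : rkey a j r α < rkey a j r β :=
    lt_of_le_of_ne h1 fun h' => hαβ (rkey_inj a j r h')
  exact absurd (h8.2 h10) (not_lt.2 h2)

end Basic

section Split

variable {W : Type} [LinearOrder W] [WellFoundedLT W] [Uncountable W]

theorem countable_Iic (hW : ∀ δ : W, (Iio δ).Countable) (δ : W) : (Iic δ).Countable := by
  rw [← Iio_insert]
  exact (hW δ).insert δ

theorem exists_gt_mem (hW : ∀ δ : W, (Iio δ).Countable) {Y : Set W} (hY : ¬ Y.Countable) (δ : W) :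
    ∃ α ∈ Y, δ < α := by
  by_contra hcon
  push Not at hcon
  exact hY ((countable_Iic hW δ).mono hcon)

/-- the points of `Y` in the cone of `u` at the level `δ` -/
def cone (a : W → W → ℕ) (Y : Set W) (δ : W) (u : W → ℕ) : Set W :=
  {α | α ∈ Y ∧ restr δ (word a α) = u}

theorem cover_cone (hW : ∀ δ : W, (Iio δ).Countable) {a : W → W → ℕ} (ha : IsCohFam a)
    {Y : Set W} (δ : W) {P : Set (W → ℕ)} (hP : ∀ u ∉ P, (cone a Y δ u).Countable) :
    (Y \ {α | restr δ (word a α) ∈ P}).Countable := by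
  have h1 : Y \ {α | restr δ (word a α) ∈ P} ⊆
      ⋃ u ∈ (range (fun δ' => restr δ (word a δ'))) \ P, cone a Y δ u := by
    rintro α ⟨hα, hα'⟩
    exact mem_biUnion (show restr δ (word a α) ∈ _ from ⟨⟨α, rfl⟩, hα'⟩) ⟨hα, rfl⟩
  exact (((countable_nodes hW ha δ).mono diff_subset).biUnion fun u hu => hP u hu.2).mono h1

/-- every uncountable set splits into two uncountable cones -/
theorem exists_two (hW : ∀ δ : W, (Iio δ).Countable) {a : W → W → ℕ} (ha : IsCohFam a)
    {Y : Set W} (hY : ¬ Y.Countable) :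
    ∃ (δ : W) (u v : W → ℕ), u ≠ v ∧ ¬ (cone a Y δ u).Countable ∧ ¬ (cone a Y δ v).Countable := by
  classical
  by_contra hcon
  push Not at hcon
  have hex : ∀ δ : W, ∃ u, ¬ (cone a Y δ u).Countable := by
    intro δ
    by_contra h
    push Not at h
    apply hY
    have := cover_cone hW ha (Y := Y) δ (P := ∅) (fun u _ => h u)
    simpa using this
  choose u hu using hex
  have hco : ∀ δ, (Y \ cone a Y δ (u δ)).Countable := by
    intro δ
    refine (cover_cone hW ha (Y := Y) δ (P := {u δ}) ?_).mono ?_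
    · intro v hv
      by_contra h
      exact h (hcon δ (u δ) v (fun h' => hv h'.symm) (hu δ))
    · rintro α ⟨hα, hα'⟩
      exact ⟨hα, fun h => hα' ⟨hα, h⟩⟩
  have hmeet : ∀ δ δ' : W, ∃ α, δ < α ∧ δ' < α ∧ restr δ (word a α) = u δ ∧
      restr δ' (word a α) = u δ' := by
    intro δ δ'
    have h1 : ¬ (Y \ ((Y \ cone a Y δ (u δ)) ∪ (Y \ cone a Y δ' (u δ')))).Countable := by
      intro h
      apply hY
      refine (h.union ((hco δ).union (hco δ'))).mono ?_
      intro α hα
      by_cases h' : α ∈ (Y \ cone a Y δ (u δ)) ∪ (Y \ cone a Y δ' (u δ'))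
      · right; exact h'
      · left; exact ⟨hα, h'⟩
    obtain ⟨α, ⟨hα, hα'⟩, hlt⟩ := exists_gt_mem hW h1 (max δ δ')
    rw [max_lt_iff] at hlt
    have h2 : α ∈ cone a Y δ (u δ) := by
      by_contra h
      exact hα' (Or.inl ⟨hα, h⟩)
    have h3 : α ∈ cone a Y δ' (u δ') := by
      by_contra h
      exact hα' (Or.inr ⟨hα, h⟩)
    exact ⟨α, hlt.1, hlt.2, h2.2, h3.2⟩
  have := noMax hW
  choose s hs using fun ξ : W => exists_gt ξ
  let b : W → ℕ := fun ξ => u (s ξ) ξ
  have hb : ∀ ξ δ : W, ξ < δ → u δ ξ = b ξ := by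
    intro ξ δ h
    obtain ⟨α, h1, h2, h3, h4⟩ := hmeet δ (s ξ)
    show u δ ξ = u (s ξ) ξ
    rw [← h3, ← h4]
    unfold restr
    rw [if_pos h, if_pos (hs ξ)]
  have hcov : ¬ (∀ n, {ξ | b ξ = n}.Countable) := by
    intro h
    have : (univ : Set W) = ⋃ n, {ξ | b ξ = n} := by
      symm
      rw [eq_univ_iff_forall]
      intro ξ
      exact mem_iUnion.2 ⟨b ξ, rfl⟩
    have h2 : (univ : Set W).Countable := by
      rw [this]
      exact countable_iUnion h
    exact not_countable (α := W) (Set.countable_univ_iff.1 h2)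
  push Not at hcov
  obtain ⟨n, hn⟩ := hcov
  have hinf : {ξ | b ξ = n}.Infinite := fun h => hn h.countable
  obtain ⟨C, hC, hCinf, hCc⟩ : ∃ C ⊆ {ξ | b ξ = n}, C.Infinite ∧ C.Countable := by
    let f := hinf.natEmbedding
    refine ⟨range fun k => (f k : W), ?_, ?_, countable_range _⟩
    · rintro _ ⟨k, rfl⟩
      exact (f k).2
    · apply infinite_range_of_injective
      intro x y hxy
      exact f.injective (Subtype.ext hxy)
  obtain ⟨δ, hδ⟩ := countable_bdd hW hCc
  obtain ⟨α, h1, -, h3, -⟩ := hmeet δ δ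
  apply hCinf
  refine (finite_small ha α n).subset ?_
  intro ξ hξ
  have h4 : u δ ξ = n := (hb ξ δ (hδ ξ hξ)).trans (hC hξ)
  refine ⟨(hδ ξ hξ).trans h1, ?_⟩
  rw [← h4, ← h3]
  unfold restr
  rw [if_pos (hδ ξ hξ)]

end Split

section Aronszajn

variable {W : Type} [LinearOrder W] [WellFoundedLT W] [Uncountable W]

theorem rline_uncountable (a : W → W → ℕ) (j : W → (W → ℕ) → ℕ) (r : ℕ → Bool) :
    Uncountable (RLine a j r) := by
  have : Function.Injective (fun δ : W => (⟨rkey a j r δ, δ, rfl⟩ : RLine a j r)) := by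
    intro δ δ' h
    exact rkey_inj a j r (congrArg Subtype.val h)
  exact this.uncountable

/-- the place of a point of the line -/
noncomputable def ix (a : W → W → ℕ) (j : W → (W → ℕ) → ℕ) (r : ℕ → Bool) (x : RLine a j r) : W :=
  x.2.choose

theorem rkey_ix (a : W → W → ℕ) (j : W → (W → ℕ) → ℕ) (r : ℕ → Bool) (x : RLine a j r) :
    rkey a j r (ix a j r x) = x.1 := x.2.choose_spec

theorem ix_inj (a : W → W → ℕ) (j : W → (W → ℕ) → ℕ) (r : ℕ → Bool) :
    Function.Injective (ix a j r) := by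
  intro x y h
  apply Subtype.ext
  rw [← rkey_ix, ← rkey_ix, h]

theorem ix_image {a : W → W → ℕ} {j : W → (W → ℕ) → ℕ} {r : ℕ → Bool} {s : Set (RLine a j r)}
    (hs : ¬ s.Countable) : ¬ (ix a j r '' s).Countable := fun h =>
  hs (countable_of_injective_of_countable_image (ix_inj a j r).injOn h)

/-- between two points of a cone, in a linear order which is the line or its converse -/
theorem rline_convex {a : W → W → ℕ} {j : W → (W → ℕ) → ℕ} {r : ℕ → Bool} {x y z : RLine a j r}
    {δ : W} {u : W → ℕ} (h1 : x ≤ y) (h2 : y ≤ z) (hx : restr δ (word a (ix a j r x)) = u)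
    (hz : restr δ (word a (ix a j r z)) = u) : restr δ (word a (ix a j r y)) = u := by
  rw [← hx]
  apply rkey_convex a j r (γ := ix a j r z)
  · rw [rkey_ix, rkey_ix]
    exact h1
  · rw [rkey_ix, rkey_ix]
    exact h2
  · rw [hx, hz]

theorem wf_of_conv (hW : ∀ δ : W, (Iio δ).Countable) {a : W → W → ℕ} (ha : IsCohFam a)
    {L : Type} [LinearOrder L] (e : L → W) (he : Function.Injective e)
    (hconv : ∀ x y z : L, ∀ (δ : W) (u : W → ℕ), x ≤ y → y ≤ z → restr δ (word a (e x)) = u →
      restr δ (word a (e z)) = u → restr δ (word a (e y)) = u)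
    (s : Set L) (hs : s.WellFoundedOn (· < ·)) : s.Countable := by
  by_contra hc
  obtain ⟨t, -, htc, hini⟩ := exists_init hc hs
  have h1 : ¬ (e '' t).Countable := fun h =>
    htc (countable_of_injective_of_countable_image he.injOn h)
  obtain ⟨δ, u, v, huv, hu, hv⟩ := exists_two hW ha h1
  have hbig : ∀ w : W → ℕ, ¬ (cone a (e '' t) δ w).Countable → ∀ y ∈ t,
      ∃ y' ∈ t, restr δ (word a (e y')) = w ∧ y < y' := by
    intro w hw y hy
    by_contra h2
    push Not at h2
    apply hw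
    refine ((hini y hy).image e).mono ?_
    rintro _ ⟨⟨z, hz, rfl⟩, hz'⟩
    exact ⟨z, ⟨hz, h2 z hz hz'⟩, rfl⟩
  obtain ⟨_, ⟨⟨y, hy, rfl⟩, hyu⟩⟩ : (cone a (e '' t) δ u).Nonempty := by
    by_contra h
    rw [not_nonempty_iff_eq_empty] at h
    exact hu (by rw [h]; exact countable_empty)
  obtain ⟨y', hy', h2, h3⟩ := hbig v hv y hy
  obtain ⟨y'', hy'', h4, h5⟩ := hbig u hu y' hy'
  have h6 := hconv y y' y'' δ u h3.le h5.le hyu h4
  exact huv (h6.symm.trans h2)

theorem rline_aronszajn (hW : ∀ δ : W, (Iio δ).Countable) {a : W → W → ℕ} (ha : IsCohFam a)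
    (j : W → (W → ℕ) → ℕ) (r : ℕ → Bool) : IsAronszajn (RLine a j r) := by
  refine ⟨rline_uncountable a j r, ?_, ?_, ?_⟩
  · exact wf_of_conv hW ha (ix a j r) (ix_inj a j r)
      (fun x y z δ u h1 h2 h3 h4 => rline_convex h1 h2 h3 h4)
  · intro s hs
    exact wf_of_conv (L := (RLine a j r)ᵒᵈ) hW ha (ix a j r) (ix_inj a j r)
      (fun x y z δ u h1 h2 h3 h4 => rline_convex (a := a) (j := j) (r := r) (x := z) (y := y)
        (z := x) h2 h1 h4 h3) s hs
  · rintro s ⟨f, hf⟩
    by_contra hc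
    obtain ⟨D, hD⟩ := TopologicalSpace.exists_countable_dense (range f)
    -- a countable set of points of `s`
    choose g hg using fun x : range f => x.2
    have hDc : ((fun x : range f => ix a j r (g x).1) '' D).Countable := hD.1.image _
    obtain ⟨δ, hδ⟩ := countable_bdd hW hDc
    have h1 := ix_image hc
    have hex : ∃ u, ¬ (cone a (ix a j r '' s) δ u).Countable := by
      by_contra h
      push Not at h
      apply h1
      have := cover_cone hW ha (Y := ix a j r '' s) δ (P := ∅) (fun u _ => h u)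
      simpa using this
    obtain ⟨u, hu⟩ := hex
    have h2 : ¬ {x | x ∈ s ∧ restr δ (word a (ix a j r x)) = u}.Countable := by
      intro h
      apply hu
      refine (h.image (ix a j r)).mono ?_
      rintro _ ⟨⟨z, hz, rfl⟩, hz'⟩
      exact ⟨z, ⟨hz, hz'⟩, rfl⟩
    obtain ⟨x, hx, y, hy, z, hz, hxy, hyz⟩ := exists_three h2
    have hopen : IsOpen {w : range f | f ⟨x, hx.1⟩ < w.1 ∧ w.1 < f ⟨z, hz.1⟩} := by
      apply IsOpen.inter
      · exact isOpen_lt continuous_const continuous_subtype_val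
      · exact isOpen_lt continuous_subtype_val continuous_const
    obtain ⟨w, hw, hwD⟩ := hD.2.inter_open_nonempty _ hopen
      ⟨⟨f ⟨y, hy.1⟩, mem_range_self _⟩, hf hxy, hf hyz⟩
    have hgw : f (g w) = w.1 := hg w
    have h3 : x < (g w).1 := by
      have : f ⟨x, hx.1⟩ < f (g w) := by
        rw [hgw]
        exact hw.1
      exact hf.lt_iff_lt.1 this
    have h4 : (g w).1 < z := by
      have : f (g w) < f ⟨z, hz.1⟩ := by
        rw [hgw]
        exact hw.2
      exact hf.lt_iff_lt.1 this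
    have h5 := rline_convex h3.le h4.le hx.2 hz.2
    have h6 : ix a j r (g w).1 < δ := hδ _ ⟨w, hwD, rfl⟩
    obtain ⟨α, hα, hlt⟩ := exists_gt_mem hW hu δ
    have h7 : restr δ (word a (ix a j r (g w).1)) = restr δ (word a α) := h5.trans hα.2.symm
    rw [restr_eq_iff] at h7
    have h8 := h7 _ h6
    rw [(word_eq_zero a _ _).2 le_rfl] at h8
    have h9 := (word_eq_zero a _ _).1 h8.symm
    exact absurd (h6.trans hlt) (not_lt.2 h9)

end Aronszajn

end Pool.Agent.H622
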