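import Pool.Agent.H622_Rnd.Comb
import Pool.Agent.H622_Rnd.Bits

/-!
# The random line contains no Countryman line
-/

set_option autoImplicit false

open Set MeasureTheory

namespace Pool.Agent.H622

open Pool.Agent.Helper594.Ctry
open Pool.Agent.H497 (exists_fiber)

section Meas

variable {Ω : Type} [MeasurableSpace Ω] {μ : Measure Ω} [IsProbabilityMeasure μ]

theorem exists_inter {B : ℕ → Set Ω} (hB : ∀ k, MeasurableSet (B k)) {ε : ENNReal} (hε : ε ≠ 0)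
    (h : ∀ k, ε ≤ μ (B k)) : ∃ k l, k < l ∧ μ (B k ∩ B l) ≠ 0 := by
  by_contra hcon
  push Not at hcon
  have hd : Pairwise (Function.onFun (AEDisjoint μ) B) := by
    intro k l hkl
    rcases lt_or_gt_of_ne hkl with h1 | h1
    · exact hcon k l h1
    · have h2 : AEDisjoint μ (B l) (B k) := hcon l k h1
      exact h2.symm
  have h1 := measure_iUnion₀ hd (fun k => (hB k).nullMeasurableSet)
  have h2 : ∑' k, μ (B k) = ⊤ := by
    rw [eq_top_iff, ← ENNReal.tsum_const_eq_top_of_ne_zero (α := ℕ) hε]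
    exact ENNReal.tsum_le_tsum h
  rw [h2] at h1
  exact measure_ne_top μ _ h1

theorem exists_part {A : Set Ω} {K : ℕ → Set Ω} (hA : μ A ≠ 0)
    (h : ∀ᵐ ω ∂μ, ω ∈ A → ∃ n, ω ∈ K n) : ∃ n, μ (A ∩ K n) ≠ 0 := by
  by_contra hcon
  push Not at hcon
  apply hA
  have h1 : μ (⋃ n, A ∩ K n) = 0 := measure_iUnion_null hcon
  rw [← nonpos_iff_eq_zero, ← h1]
  apply measure_mono_ae
  filter_upwards [h] with ω hω hωA
  obtain ⟨n, hn⟩ := hω hωA
  exact mem_iUnion.2 ⟨n, hωA, hn⟩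

end Meas

section Main

variable {W : Type} [LinearOrder W] [WellFoundedLT W] [Uncountable W]

theorem no_countryman (hW : ∀ δ : W, (Iio δ).Countable) {a : W → W → ℕ} (ha : IsCohFam a)
    {j : W → (W → ℕ) → ℕ} (hj : Enum a j)
    {Ω : Type} [MeasurableSpace Ω] {μ : Measure Ω} [IsProbabilityMeasure μ] {r : Ω → ℕ → Bool}
    (hr : FairBits μ r) {X : W → Set Ω} (hX : ∀ α, MeasurableSet (X α))
    {K : ℕ → W → W → Set Ω} (hK : ∀ n α β, MeasurableSet (K n α β))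
    (hcov : ∀ α β, ∀ᵐ ω ∂μ, ω ∈ X α → ω ∈ X β → ∃ n, ω ∈ K n α β)
    (hchain : ∀ n α β α' β', ∀ᵐ ω ∂μ, ω ∈ K n α β → ω ∈ K n α' β' →
      (rkey a j (r ω) α ≤ rkey a j (r ω) α' ∧ rkey a j (r ω) β ≤ rkey a j (r ω) β') ∨
      (rkey a j (r ω) α' ≤ rkey a j (r ω) α ∧ rkey a j (r ω) β' ≤ rkey a j (r ω) β)) :
    {α | μ (X α) ≠ 0}.Countable := by
  classical
  by_contra hcon
  -- a lower bound of the measures
  have h1 : ∀ α, ∃ n : ℕ, μ (X α) ≠ 0 → (n : ENNReal)⁻¹ < μ (X α) := by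
    intro α
    by_cases h : μ (X α) = 0
    · exact ⟨0, fun h' => (h' h).elim⟩
    · obtain ⟨n, hn⟩ := ENNReal.exists_inv_nat_lt h
      exact ⟨n, fun _ => hn⟩
  choose e he using h1
  obtain ⟨E, hE⟩ := exists_fiber hcon e
  obtain ⟨A, hA, hAsep⟩ := exists_comb hW ha hE
  choose z hzA hz using fun (τ : W) (k : ℕ) => exists_gt_mem hW (hA k).2 τ
  have hbig : ∀ τ k, (E : ENNReal)⁻¹ ≤ μ (X (z τ k)) := by
    intro τ k
    have h2 := (hA k).1 (hzA τ k)
    have h3 : e (z τ k) = E := h2.2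
    rw [← h3]
    exact (he _ h2.1).le
  have hex : ∀ τ : W, ∃ c : ℕ × ℕ × ℕ × ℕ, c.1 < c.2.1 ∧ (1 : ℝ) / (c.2.2.2 + 1) <
      μ.real ((X (z τ c.1) ∩ X (z τ c.2.1)) ∩ K c.2.2.1 (z τ c.1) (z τ c.2.1)) := by
    intro τ
    obtain ⟨k, l, hkl, h2⟩ := exists_inter (μ := μ) (fun k => hX (z τ k))
      (ENNReal.inv_ne_zero.2 (ENNReal.natCast_ne_top E)) (hbig τ)
    obtain ⟨n, hn⟩ := exists_part (K := fun n => K n (z τ k) (z τ l)) h2 (by
      filter_upwards [hcov (z τ k) (z τ l)] with ω hω h3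
      exact hω h3.1 h3.2)
    have h4 : 0 < μ.real ((X (z τ k) ∩ X (z τ l)) ∩ K n (z τ k) (z τ l)) :=
      ENNReal.toReal_pos hn (measure_ne_top _ _)
    obtain ⟨m, hm⟩ := exists_nat_one_div_lt h4
    exact ⟨(k, l, n, m), hkl, hm⟩
  choose c hc1 hc2 using hex
  have huniv : ¬ (univ : Set W).Countable := fun h =>
    not_countable (α := W) (Set.countable_univ_iff.1 h)
  obtain ⟨⟨k, l, n, m⟩, hI⟩ := exists_fiber huniv c
  have hne : {τ ∈ (univ : Set W) | c τ = (k, l, n, m)}.Nonempty := by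
    by_contra h
    rw [not_nonempty_iff_eq_empty] at h
    exact hI (by rw [h]; exact countable_empty)
  have hkl : k < l := by
    obtain ⟨τ, hτ⟩ := hne
    have h2 := hc1 τ
    rw [hτ.2] at h2
    exact h2
  obtain ⟨δ, u, v, huv, hu, hv⟩ := hAsep k l hkl
  obtain ⟨I', hI', hI'c, f, g, s, t, hbits, hthin⟩ := exists_bits2 hW ha hj hI
    (p := fun τ => z τ k) (q := fun τ => z τ l) (fun τ => hz τ k) (fun τ => hz τ l) huv
    (fun τ _ => hu _ (hzA τ k)) (fun τ _ => hv _ (hzA τ l))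
  refine rand_false (μ := μ) (r := xbit r) (xbit_meas hr) (xbit_half hr)
    (fun _ _ h => xbit_quarter hr h)
    (b := fun τ => (X (z τ k) ∩ X (z τ l)) ∩ K n (z τ k) (z τ l))
    (fun τ => ((hX _).inter (hX _)).inter (hK _ _ _)) hI'c (ε := 1 / (m + 1)) (by positivity) ?_
    (n := fun τ σ => enc (f τ σ) (g τ σ)) (s := fun τ σ => xor (s τ σ) (t τ σ)) ?_ ?_
  · intro τ hτ
    have h2 := hc2 τ
    rw [(hI' hτ).2] at h2
    exact h2.le
  · intro τ hτ σ hσ hne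
    obtain ⟨h2, h3, h4, h5, h6⟩ := hbits τ hτ σ hσ hne
    filter_upwards [hchain n (z τ k) (z τ l) (z σ k) (z σ l)] with ω hω h7 h8
    have h9 := hω h7.2 h8.2
    rw [xbit_enc r ω h2]
    have h10 : rkey a j (r ω) (z τ k) ≠ rkey a j (r ω) (z σ k) := fun h =>
      h5 (rkey_inj a j _ h)
    have h11 : rkey a j (r ω) (z τ l) ≠ rkey a j (r ω) (z σ l) := fun h =>
      h6 (rkey_inj a j _ h)
    have h12 : r ω (f τ σ) = s τ σ ↔ r ω (g τ σ) = t τ σ := by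
      rw [← h3, ← h4]
      rcases h9 with h9 | h9
      · exact ⟨fun _ => lt_of_le_of_ne h9.2 h11, fun _ => lt_of_le_of_ne h9.1 h10⟩
      · exact ⟨fun h => absurd h9.1 (not_le.2 h), fun h => absurd h9.2 (not_le.2 h)⟩
    revert h12
    cases r ω (f τ σ) <;> cases r ω (g τ σ) <;> cases s τ σ <;> cases t τ σ <;> decide
  · intro N Y hY hYc
    obtain ⟨Z, hZ, hZc, h2⟩ := hthin N Y hY hYc
    refine ⟨Z, hZ, hZc, fun τ hτ σ hσ hne => ?_⟩
    have h3 := h2 τ hτ σ hσ hne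
    exact (le_min h3.1 h3.2).trans (le_enc _ _)

end Main

end Pool.Agent.H622
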